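import Pool.Agent.X144.DB.Main

/-!
# Every disagreement bound `f` satisfies `f(x) ≥ 2x/(1+x)` on `[0,1]`

`dTV μ ν` is the supremum of `|μ(A) - ν(A)|` over the measurable sets `A` of reals. A function `f`
is a disagreement bound (`IsDisagreementBound`) if it maps `[0,1]` to `[0,1]` and every finite
family of probability measures on the line has a coupling `X i` with
`P(X i ≠ X j) ≤ f (dTV (μ i) (μ j))` for all `i ≠ j`.

The proof: fix `x` in `(0,1)`, a large `J` and `k = ⌊J/(1-x)⌋`. The collection is indexed by the
`k`-subsets `A` of `{0,...,N-1}`; the law of `A` has atoms of mass `(1-x)/J` at the elements of `A`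
and a private atom. If `A`, `B` have exactly `J` common elements then the total variation distance is
`x`, and an agreement of the two variables is a common choice of an element of `A ∩ B`. For every
choice function the average number of agreements is bounded by `J/(2k-J+1)` up to an error that
vanishes as `N` and then `J` tend to infinity (rearrangement and Cauchy–Schwarz for the weight of the
last element, and a projection bound for exchangeable functions).
-/

set_option autoImplicit false

namespace Pool.Agent.Results.MP_fe4852_pr.PointwiseOptimality

open MeasureTheory Pool.Agent.X144.DB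

theorem at_one {f : ℝ → ℝ} (hf : IsDisagreementBound f) : 1 ≤ f 1 := by
  obtain ⟨Ω, _, P, X, hP, hX, hlaw, hdis⟩ := hf.2 Bool
    (fun b => Measure.dirac (if b then (1 : ℝ) else 0)) (fun b => by infer_instance)
  have h1 := hdis true false (by decide)
  have h2 : dTV (Measure.dirac (if (true : Bool) then (1 : ℝ) else 0))
      (Measure.dirac (if (false : Bool) then (1 : ℝ) else 0)) = 1 := by
    apply dTV_eq
    · intro A _
      have h1 : (Measure.dirac (if (true : Bool) then (1 : ℝ) else 0)).real A ≤ 1 :=
        measureReal_le_one
      have h2 : (Measure.dirac (if (false : Bool) then (1 : ℝ) else 0)).real A ≤ 1 :=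
        measureReal_le_one
      have h3 : 0 ≤ (Measure.dirac (if (true : Bool) then (1 : ℝ) else 0)).real A :=
        measureReal_nonneg
      have h4 : 0 ≤ (Measure.dirac (if (false : Bool) then (1 : ℝ) else 0)).real A :=
        measureReal_nonneg
      rw [abs_le]
      constructor <;> linarith
    · refine ⟨{1}, measurableSet_singleton _, ?_⟩
      simp [Measure.real, Measure.dirac_apply' _ (measurableSet_singleton (1 : ℝ))]
  rw [h2] at h1
  refine le_trans (le_of_eq ?_) h1
  have e1 : ∀ᵐ ω ∂P, X true ω = 1 := by
    have h3 : P.map (X true) {1}ᶜ = 0 := by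
      rw [hlaw true, Measure.dirac_apply' _ (measurableSet_singleton _).compl]
      simp
    rw [Measure.map_apply (hX true) (measurableSet_singleton _).compl] at h3
    exact ae_iff.2 h3
  have e2 : ∀ᵐ ω ∂P, X false ω = 0 := by
    have h3 : P.map (X false) {0}ᶜ = 0 := by
      rw [hlaw false, Measure.dirac_apply' _ (measurableSet_singleton _).compl]
      simp
    rw [Measure.map_apply (hX false) (measurableSet_singleton _).compl] at h3
    exact ae_iff.2 h3
  have e3 : {ω | X true ω ≠ X false ω} =ᵐ[P] Set.univ := by
    filter_upwards [e1, e2] with ω h3 h4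
    have : ω ∈ {ω | X true ω ≠ X false ω} := by
      show X true ω ≠ X false ω
      rw [h3, h4]
      exact one_ne_zero
    exact eq_true this
  rw [measureReal_congr e3, probReal_univ]

/-- Every disagreement bound is pointwise at least `F(x) = 2x/(1+x)`. -/
theorem result : ∀ f : ℝ → ℝ, IsDisagreementBound f →
    ∀ x ∈ Set.Icc (0 : ℝ) 1, 2 * x / (1 + x) ≤ f x := by
  intro f hf x hx
  rcases eq_or_lt_of_le hx.1 with h0 | h0
  · rw [← h0]
    have := (hf.1 0 ⟨le_rfl, zero_le_one⟩).1
    simpa using this
  · rcases eq_or_lt_of_le hx.2 with h1 | h1
    · rw [h1]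
      have := at_one hf
      norm_num
      exact this
    · exact lower_bound hf h0 h1

end Pool.Agent.Results.MP_fe4852_pr.PointwiseOptimality
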